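import Mathlib

/-! Valuation estimates for truncated q-Legendre sums: basic tools and the sum over roots of
unity. -/

open Finset

namespace Pool.Agent.P.MP_594717_nt

variable {F : Type*} [Field F] {Γ : Type*} [LinearOrderedCommGroupWithZero Γ]

/-- Standing hypotheses: `Q` reduces to a primitive `n`-th root of unity in residue
characteristic zero. -/
structure H (v : Valuation F Γ) (γ : Γ) (n : ℕ) (Q : F) : Prop where
  g1 : γ < 1
  int : ∀ k : ℤ, k ≠ 0 → v (k : F) = 1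
  vQ : v Q = 1
  vk : ∀ k, 0 < k → k < n → v (1 - Q ^ k) = 1
  vU : v (1 - Q ^ n) ≤ γ

/-- `X` vanishes to order `j`. -/
def D (v : Valuation F Γ) (γ : Γ) (j : ℕ) (X : F) : Prop := v X ≤ γ ^ j

variable {v : Valuation F Γ} {γ : Γ} {n : ℕ} {Q : F}

theorem D.add {j : ℕ} {X Y : F} (hX : D v γ j X) (hY : D v γ j Y) : D v γ j (X + Y) :=
  v.map_add_le hX hY

theorem D.sub {j : ℕ} {X Y : F} (hX : D v γ j X) (hY : D v γ j Y) : D v γ j (X - Y) :=
  v.map_sub_le hX hY

theorem D.neg {j : ℕ} {X : F} (hX : D v γ j X) : D v γ j (-X) := by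
  unfold D at *; rwa [v.map_neg]

theorem D.mul {i j : ℕ} {X Y : F} (hX : D v γ i X) (hY : D v γ j Y) : D v γ (i + j) (X * Y) := by
  unfold D at *; rw [map_mul, pow_add]; exact mul_le_mul' hX hY

theorem D.mulr {j : ℕ} {X Y : F} (hX : D v γ j X) (hY : v Y ≤ 1) : D v γ j (X * Y) := by
  unfold D at *; rw [map_mul]; simpa using mul_le_mul' hX hY

theorem D.mull {j : ℕ} {X Y : F} (hX : D v γ j X) (hY : v Y ≤ 1) : D v γ j (Y * X) := by
  rw [mul_comm]; exact hX.mulr hY

theorem D.div {j : ℕ} {X Y : F} (hX : D v γ j X) (hY : v Y = 1) : D v γ j (X / Y) := by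
  unfold D at *; rwa [map_div₀, hY, div_one]

theorem D.of_mul {j : ℕ} {X Y : F} (hX : D v γ j (Y * X)) (hY : v Y = 1) : D v γ j X := by
  unfold D at *; rwa [map_mul, hY, one_mul] at hX

theorem D.mono (hg : γ < 1) {i j : ℕ} {X : F} (hX : D v γ i X) (h : j ≤ i) : D v γ j X :=
  le_trans hX (pow_le_pow_right_of_le_one' hg.le h)

theorem D.le_one (hg : γ < 1) {i : ℕ} {X : F} (hX : D v γ i X) : v X ≤ 1 := by
  have := hX.mono hg (Nat.zero_le i); simpa [D] using this

theorem D.eq {j : ℕ} {X Y : F} (hX : D v γ j X) (e : Y = X) : D v γ j Y := e ▸ hX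

theorem D.zero (j : ℕ) : D v γ j 0 := by simp [D]

theorem D.sum {ι : Type*} {j : ℕ} {s : Finset ι} {f : ι → F} (h : ∀ i ∈ s, D v γ j (f i)) :
    D v γ j (∑ i ∈ s, f i) := v.map_sum_le h

theorem D.one {X : F} (h : v X ≤ γ) : D v γ 1 X := by simpa [D] using h

theorem D.lt_one (hg : γ < 1) {X : F} (h : D v γ 1 X) : v X < 1 := by
  have : v X ≤ γ := by simpa [D] using h
  exact this.trans_lt hg

theorem D.unit (hg : γ < 1) {X Y : F} (h : D v γ 1 (X - Y)) (hY : v Y = 1) : v X = 1 := by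
  rw [← hY]; apply v.map_eq_of_sub_lt; rw [hY]; exact h.lt_one hg

theorem le1_sub {X Y : F} (hX : v X ≤ 1) (hY : v Y ≤ 1) : v (X - Y) ≤ 1 := v.map_sub_le hX hY

theorem le1_add {X Y : F} (hX : v X ≤ 1) (hY : v Y ≤ 1) : v (X + Y) ≤ 1 := v.map_add_le hX hY

theorem le1_mul {X Y : F} (hX : v X ≤ 1) (hY : v Y ≤ 1) : v (X * Y) ≤ 1 := by
  rw [map_mul]; exact mul_le_one' hX hY

theorem le1_div {X Y : F} (hX : v X ≤ 1) (hY : v Y = 1) : v (X / Y) ≤ 1 := by
  rwa [map_div₀, hY, div_one]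

theorem le1_one_sub {X : F} (hX : v X = 1) : v (1 - X) ≤ 1 := le1_sub (by simp) hX.le

theorem ne0 {X : F} (hX : v X = 1) : X ≠ 0 := by
  intro h; rw [h, map_zero] at hX; exact zero_ne_one hX

theorem le1_prod {ι : Type*} {s : Finset ι} {f : ι → F} (h : ∀ i ∈ s, v (f i) ≤ 1) :
    v (∏ i ∈ s, f i) ≤ 1 := by
  rw [map_prod]; exact prod_le_one' h

theorem D.prod {ι : Type*} {j : ℕ} {s : Finset ι} {f g : ι → F}
    (h : ∀ i ∈ s, D v γ j (f i - g i)) (hf : ∀ i ∈ s, v (f i) ≤ 1) (hg : ∀ i ∈ s, v (g i) ≤ 1) :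
    D v γ j (∏ i ∈ s, f i - ∏ i ∈ s, g i) := by
  classical
  induction s using Finset.induction_on with
  | empty => simpa using D.zero j
  | insert a s ha ih =>
    rw [prod_insert ha, prod_insert ha]
    have h1 := ih (fun i hi => h i (mem_insert_of_mem hi)) (fun i hi => hf i (mem_insert_of_mem hi))
      (fun i hi => hg i (mem_insert_of_mem hi))
    have h2 := (h a (mem_insert_self _ _)).mulr
      (le1_prod (fun i hi => hg i (mem_insert_of_mem hi)))
    exact ((h1.mull (hf a (mem_insert_self _ _))).add h2).eq (by ring)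

theorem H.nat (h : H v γ n Q) {k : ℕ} (hk : k ≠ 0) : v (k : F) = 1 := by
  have := h.int k (by exact_mod_cast hk); simpa using this

theorem H.natle (h : H v γ n Q) (k : ℕ) : v (k : F) ≤ 1 := by
  rcases Nat.eq_zero_or_pos k with rfl | hk
  · simp
  · exact (h.nat hk.ne').le

theorem H.intle (h : H v γ n Q) (k : ℤ) : v (k : F) ≤ 1 := by
  by_cases hk : k = 0
  · simp [hk]
  · exact (h.int k hk).le

theorem H.pow (h : H v γ n Q) (k : ℕ) : v (Q ^ k) = 1 := by simp [h.vQ]

theorem H.U (h : H v γ n Q) : D v γ 1 (1 - Q ^ n) := D.one h.vU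

theorem D.one_sub_pow {X : F} (hX : v X ≤ 1) {j : ℕ} (h : D v γ j (1 - X)) (k : ℕ) :
    D v γ j (1 - X ^ k) := by
  have := D.prod (s := range k) (f := fun _ => (1 : F)) (g := fun _ => X) (fun _ _ => h)
    (fun _ _ => by simp) (fun _ _ => hX)
  simpa using this

theorem wsum (η c : F) (N : ℕ) :
    (1 - η) ^ 3 * ∑ j ∈ range N, (j : F) * (c - j) * η ^ j =
      η * (c * (1 - η) - (1 + η)) - η ^ N * ((1 - η) ^ 2 * (N * (c - N)) +
        η * (1 - η) * (c - 2 * N - 1) - 2 * η ^ 2) := by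
  induction N with
  | zero => simp; ring
  | succ N ih => rw [sum_range_succ, mul_add, ih]; push_cast; ring

theorem psum (c : F) (N : ℕ) :
    6 * ∑ j ∈ range N, (j : F) * (c - j) = N * (N - 1) * (3 * c - 2 * N + 1) := by
  induction N with
  | zero => simp
  | succ N ih => rw [sum_range_succ, mul_add, ih]; push_cast; ring

/-- The sum of `ζ^k/(1-ζ^k)^2` over the nontrivial `n`-th roots of unity. -/
theorem H.sigma {N : ℕ} (h : H v γ (N + 1) Q) :
    D v γ 1 (∑ k ∈ range N, Q ^ (k + 1) / (1 - Q ^ (k + 1)) ^ 2 +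
      (((N : F) + 1) ^ 2 - 1) / 12) := by
  have hn : v ((N : F) + 1) = 1 := by
    have := h.nat (Nat.succ_ne_zero N); simpa using this
  have h2 : v (2 : F) = 1 := by have := h.nat (k := 2) (by norm_num); simpa using this
  have h12 : v (12 : F) = 1 := by have := h.nat (k := 12) (by norm_num); simpa using this
  set c : F := (N : F) + 1 with hc
  have A : ∀ k ∈ range N, D v γ 1 (2 * c * (Q ^ (k + 1) / (1 - Q ^ (k + 1)) ^ 2) -
      ∑ j ∈ range (N + 1), (j : F) * (c - j) * (Q ^ (k + 1)) ^ j) := by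
    intro k hk
    have hk' := mem_range.1 hk
    have hu := h.vk (k + 1) (by omega) (by omega)
    have hη := h.pow (k + 1)
    set η := Q ^ (k + 1) with hηdef
    have hU : D v γ 1 (1 - η ^ (N + 1)) := by
      have := h.U.one_sub_pow (h.pow _).le (k + 1)
      rwa [← pow_mul, mul_comm, pow_mul] at this
    have h3 : v ((1 - η) ^ 3) = 1 := by rw [map_pow, hu, one_pow]
    refine D.of_mul ?_ h3
    have hw := wsum η c (N + 1)
    have hb : v (η * (1 - η) * (-c - 1) - 2 * η ^ 2) ≤ 1 :=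
      le1_sub (le1_mul (le1_mul hη.le hu.le) (le1_sub (by simp [hn]) (by simp)))
        (by simp [h2, hη])
    refine (hU.mulr hb).neg.eq ?_
    rw [mul_sub, hw]
    have := ne0 hu
    push_cast
    rw [← hc]
    field_simp
    ring
  have B : ∀ j ∈ range N, D v γ 1 (∑ k ∈ range N, (Q ^ (k + 1)) ^ (j + 1) + 1) := by
    intro j hj
    have hj' := mem_range.1 hj
    have hu := h.vk (j + 1) (by omega) (by omega)
    refine D.of_mul ?_ hu
    have hU : D v γ 1 (1 - (Q ^ (j + 1)) ^ (N + 1)) := by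
      have := h.U.one_sub_pow (h.pow _).le (j + 1)
      rwa [← pow_mul, mul_comm, pow_mul] at this
    refine hU.eq ?_
    rw [← mul_neg_geom_sum (Q ^ (j + 1)) (N + 1), sum_range_succ', pow_zero]
    congr 2
    exact sum_congr rfl fun k _ => by rw [← pow_mul, ← pow_mul, mul_comm]
  have C1 := D.sum A
  rw [sum_sub_distrib, sum_comm, sum_range_succ'] at C1
  have C2 : D v γ 1 (∑ j ∈ range N, (((j + 1 : ℕ) : F) * (c - (j + 1 : ℕ))) *
      (∑ k ∈ range N, (Q ^ (k + 1)) ^ (j + 1) + 1)) :=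
    D.sum fun j hj => (B j hj).mull (le1_mul (h.natle _) (le1_sub hn.le (h.natle _)))
  have P := psum c (N + 1)
  rw [sum_range_succ'] at P
  have h24 : v (12 * (2 * c)) = 1 := by simp [h12, h2, hn]
  refine D.of_mul ?_ h24
  refine ((C1.add C2).mull h12.le).eq ?_
  have e1 : ∑ j ∈ range N, (((j + 1 : ℕ) : F) * (c - (j + 1 : ℕ))) *
      (∑ k ∈ range N, (Q ^ (k + 1)) ^ (j + 1) + 1) =
      ∑ j ∈ range N, ∑ k ∈ range N, ((j + 1 : ℕ) : F) * (c - (j + 1 : ℕ)) *
        (Q ^ (k + 1)) ^ (j + 1) + ∑ j ∈ range N, ((j + 1 : ℕ) : F) * (c - (j + 1 : ℕ)) := by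
    rw [← sum_add_distrib]
    exact sum_congr rfl fun j _ => by rw [mul_add, mul_one, mul_sum]
  rw [e1, ← mul_sum]
  simp only [Nat.cast_zero, zero_mul, sum_const_zero, add_zero] at P ⊢
  have hc' : ((N + 1 : ℕ) : F) = c := by rw [hc]; push_cast; ring
  rw [hc'] at P
  have := ne0 h12
  field_simp
  linear_combination (-2 : F) * P

end Pool.Agent.P.MP_594717_nt
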