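import Pool.Agent.P.MP_594717_nt.A

/-! The constant term: the sum at `x = 0` to third order. -/

open Finset

namespace Pool.Agent.P.MP_594717_nt

variable {F : Type*} [Field F] {Γ : Type*} [LinearOrderedCommGroupWithZero Γ]
variable {v : Valuation F Γ} {γ : Γ} {n : ℕ} {Q : F}

theorem D.cmul {j : ℕ} {X X' Y Y' : F} (hX : D v γ j (X - X')) (hY : D v γ j (Y - Y'))
    (h1 : v X ≤ 1) (h2 : v Y' ≤ 1) : D v γ j (X * Y - X' * Y') :=
  ((hY.mull h1).add (hX.mulr h2)).eq (by ring)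

theorem D.cdiv {j : ℕ} {X X' Y Y' : F} (hX : D v γ j (X - X')) (hY : D v γ j (Y - Y'))
    (h1 : v X' ≤ 1) (h2 : v Y = 1) (h3 : v Y' = 1) : D v γ j (X / Y - X' / Y') := by
  have := ne0 h2
  have := ne0 h3
  exact ((hX.div h2).sub (((hY.mull h1).div h2).div h3)).eq (by field_simp; ring)

def Ak (Q z : F) (k : ℕ) : F := (1 - z * Q ^ k) * (1 - Q ^ (k + 1) / z)

def cc (Q z : F) (k : ℕ) : F := ∏ i ∈ range k, Ak Q z i / (1 - Q ^ (i + 1)) ^ 2

def TT (Q z : F) (k : ℕ) : F :=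
  ∏ i ∈ range k, (1 - z * Q ^ (i + 1)) * (1 - Q ^ (i + 1) / z) / (1 - Q ^ (i + 1)) ^ 2

def SS (Q z : F) (N : ℕ) : F := ∑ k ∈ range N, cc Q z k * Q ^ k

def BB (Q z : F) (k : ℕ) : F := cc Q z k * Ak Q z k

theorem cc_succ (z : F) (k : ℕ) : cc Q z (k + 1) = BB Q z k / (1 - Q ^ (k + 1)) ^ 2 := by
  rw [cc, prod_range_succ, ← cc, BB, mul_div_assoc]

theorem TT_succ (z : F) (k : ℕ) : TT Q z (k + 1) =
    TT Q z k * ((1 - z * Q ^ (k + 1)) * (1 - Q ^ (k + 1) / z) / (1 - Q ^ (k + 1)) ^ 2) := by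
  rw [TT, prod_range_succ, ← TT]

theorem BB_eq (z : F) (k : ℕ) : BB Q z k = TT Q z k * ((1 - z) * (1 - Q ^ (k + 1) / z)) := by
  induction k with
  | zero => simp [BB, cc, TT, Ak]
  | succ k ih => rw [BB, cc_succ, ih, TT_succ, Ak]; ring

theorem BB_eq' (hQ : Q ≠ 0) (z : F) (k : ℕ) :
    BB Q (z * Q) k = TT Q z k * ((1 - z * Q ^ (k + 1)) * (1 - 1 / z)) := by
  have e : ∀ k, Q ^ (k + 1) / (z * Q) = Q ^ k / z := fun k => by
    rw [pow_succ, mul_div_mul_right _ _ hQ]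
  induction k with
  | zero => rw [BB, cc, TT, Ak, e]; simp
  | succ k ih => rw [BB, cc_succ, ih, TT_succ, Ak, e]; ring

theorem contig (hQ : Q ≠ 0) {z : F} (hz : z ≠ 0) (N : ℕ) (h : ∀ k < N, 1 - Q ^ (k + 1) ≠ 0) :
    z * SS Q z (N + 1) + SS Q (z * Q) (N + 1) = (1 + z) * TT Q z N := by
  induction N with
  | zero => simp [SS, cc, TT, add_comm]
  | succ N ih =>
    have ih' := ih fun k hk => h k (by omega)
    have hN := h N (by omega)
    simp only [SS] at ih' ⊢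
    rw [sum_range_succ _ (N + 1), sum_range_succ _ (N + 1), cc_succ, cc_succ, BB_eq, BB_eq' hQ,
      TT_succ]
    have : z * (TT Q z N * ((1 - z) * (1 - Q ^ (N + 1) / z)) / (1 - Q ^ (N + 1)) ^ 2 *
        Q ^ (N + 1)) + TT Q z N * ((1 - z * Q ^ (N + 1)) * (1 - 1 / z)) /
        (1 - Q ^ (N + 1)) ^ 2 * Q ^ (N + 1) = (1 + z) * (TT Q z N * ((1 - z * Q ^ (N + 1)) *
        (1 - Q ^ (N + 1) / z) / (1 - Q ^ (N + 1)) ^ 2)) - (1 + z) * TT Q z N := by
      field_simp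
      ring
    linear_combination ih' + this

theorem BB_prod (z : F) (k : ℕ) : BB Q z k = (∏ i ∈ range (k + 1), (1 - z * Q ^ i)) *
    (∏ i ∈ range (k + 1), (1 - Q ^ (i + 1) / z)) / (∏ i ∈ range k, (1 - Q ^ (i + 1))) ^ 2 := by
  rw [BB, cc, prod_div_distrib, prod_pow, ← prod_mul_distrib, prod_range_succ]
  simp only [Ak]
  ring

theorem H.N0 {N : ℕ} (h : H v γ (N + 1) Q) : v (∏ i ∈ range N, (1 - Q ^ (i + 1))) = 1 := by
  rw [map_prod]
  exact prod_eq_one fun i hi => h.vk _ (by omega) (by have := mem_range.1 hi; omega)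

theorem H.fac {a b : ℕ} (h : H v γ (a + b + 1) Q) {t : F} (ht : v t = 1) (h1 : D v γ 1 (1 - t)) :
    ∃ Y, ∏ i ∈ range (a + b + 1), (1 - t / Q ^ a * Q ^ i) = (1 - t) * Y ∧
      D v γ 1 (Y - ∏ i ∈ range (a + b), (1 - Q ^ (i + 1))) := by
  have hQ := ne0 h.vQ
  refine ⟨(∏ i ∈ range b, (1 - t * Q ^ (i + 1))) * ∏ i ∈ range a, (1 - t / Q ^ a * Q ^ i), ?_, ?_⟩
  · rw [add_assoc, prod_range_add, prod_range_succ']
    have e : ∀ i, t / Q ^ a * Q ^ (a + i) = t * Q ^ i := fun i => by field_simp; ring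
    simp only [e]
    ring
  · rw [add_comm a b, prod_range_add]
    have u : ∀ i, v (1 - t / Q ^ a * Q ^ i) ≤ 1 := fun i => le1_one_sub (by simp [ht, h.vQ])
    refine D.cmul (D.prod (fun i _ => ?_) (fun i _ => le1_one_sub (by simp [ht, h.vQ]))
      (fun i _ => le1_one_sub (h.pow _))) (D.prod (fun i _ => ?_) (fun i _ => u i)
      (fun i _ => le1_one_sub (h.pow _)))
      (le1_prod fun i _ => le1_one_sub (by simp [ht, h.vQ]))
      (le1_prod fun i _ => le1_one_sub (h.pow _))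
    · exact (h1.mulr (h.pow (i + 1)).le).eq (by ring)
    · exact (((h1.sub h.U).mulr (h.pow i).le).div (h.pow a)).eq (by field_simp; ring)

theorem H.dual (h : H v γ n Q) {t : F} (ht : v t = 1) (h1 : D v γ 1 (1 - t)) :
    D v γ 1 (1 - Q ^ n / t) := by
  have := ne0 ht
  exact ((h.U.sub h1).div ht).eq (by field_simp; ring)

theorem H.eps (h : H v γ n Q) {t : F} (ht : v t = 1) (h1 : D v γ 1 (1 - t)) :
    D v γ 2 ((1 - t) * (1 - Q ^ n / t)) := h1.mul (h.dual ht h1)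

theorem H.BB {N a : ℕ} (h : H v γ (N + 1) Q) (ha : a ≤ N) {t : F} (ht : v t = 1)
    (h1 : D v γ 1 (1 - t)) :
    D v γ 3 (BB Q (t / Q ^ a) N - (1 - t) * (1 - Q ^ (N + 1) / t)) := by
  obtain ⟨b, rfl⟩ := Nat.exists_eq_add_of_le ha
  have hQ := ne0 h.vQ
  have ht0 := ne0 ht
  obtain ⟨Y, e1, d1⟩ := h.fac ht h1
  have h' : H v γ (b + a + 1) Q := by rwa [add_comm b a]
  obtain ⟨Z, e2, d2⟩ := h'.fac (t := Q ^ (a + b + 1) / t) (by simp [ht, h.vQ]) (h.dual ht h1)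
  rw [add_comm b a] at e2 d2
  have e3 : ∀ i, Q ^ (i + 1) / (t / Q ^ a) = Q ^ (a + b + 1) / t / Q ^ b * Q ^ i := fun i => by
    field_simp; ring
  rw [BB_prod]
  simp only [e3]
  rw [e1, e2]
  have hN := h.N0
  have hN0 := ne0 hN
  have hY := d1.unit h.g1 hN
  have d3 := (D.cmul d1 d2 hY.le hN.le).div (Y := (∏ i ∈ range (a + b), (1 - Q ^ (i + 1))) ^ 2)
    (by rw [map_pow, hN, one_pow])
  exact ((h.eps ht h1).mul d3).eq (by field_simp)

theorem H.TT2 (h : H v γ n Q) {t : F} (ht : v t = 1) (h1 : D v γ 1 (1 - t)) {k : ℕ} (hk : k < n) :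
    D v γ 2 (TT Q t k - 1) := by
  have ht0 := ne0 ht
  have u : ∀ i ∈ range k, v (1 - Q ^ (i + 1)) = 1 := fun i hi =>
    h.vk _ (by omega) (by have := mem_range.1 hi; omega)
  have := D.prod (v := v) (γ := γ) (j := 2) (s := range k) (g := fun _ => (1 : F))
    (f := fun i => (1 - t * Q ^ (i + 1)) * (1 - Q ^ (i + 1) / t) / (1 - Q ^ (i + 1)) ^ 2)
    (fun i hi => by
      have := ne0 (u i hi)
      exact (((((h1.mul h1).mulr (h.pow (i + 1)).le).div ht).div (u i hi)).div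
        (u i hi)).neg.eq (by field_simp; ring))
    (fun i hi => le1_div (le1_mul (le1_one_sub (by simp [ht, h.vQ]))
      (le1_one_sub (by simp [ht, h.vQ]))) (by rw [map_pow, u i hi, one_pow]))
    (fun _ _ => by simp)
  simpa [TT] using this

theorem H.binom (h : H v γ n Q) {t : F} (ht : v t = 1) (h1 : D v γ 1 (1 - t)) (N : ℕ) :
    D v γ 3 (2 * t ^ N - (2 - 2 * N * (1 - t) + N * (N - 1) * (1 - t) ^ 2)) := by
  induction N with
  | zero => simpa using D.zero 3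
  | succ N ih =>
    have h3 := ((h1.mul h1).mul h1).mull (le1_mul (h.natle N) (le1_sub (h.natle N) (le_of_eq v.map_one)))
    exact ((ih.mulr ht.le).sub h3).eq (by push_cast; ring)

theorem H.base {N : ℕ} (h : H v γ (N + 1) Q) {t ρ : F} (ht : v t = 1) (h1 : D v γ 1 (1 - t))
    (hρ : ρ ^ 2 = t ^ N) (hρ1 : D v γ 1 (ρ - 1)) :
    D v γ 3 (1 - SS Q t (N + 1) / ρ +
      (((N : F) + 1) ^ 2 - 1) / 24 * ((1 - t) * (1 - Q ^ (N + 1) / t))) := by
  have ht0 := ne0 ht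
  have hQ := ne0 h.vQ
  have vρ := hρ1.unit h.g1 v.map_one
  have hρ0 := ne0 vρ
  have c2 : v (2 : F) = 1 := by have := h.nat (k := 2) (by norm_num); simpa using this
  have c8 : v (8 : F) = 1 := by have := h.nat (k := 8) (by norm_num); simpa using this
  have c12 : v (12 : F) = 1 := by have := h.nat (k := 12) (by norm_num); simpa using this
  have c24 : v (24 : F) = 1 := by have := h.nat (k := 24) (by norm_num); simpa using this
  have n2 := ne0 c2
  have n8 := ne0 c8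
  have n12 := ne0 c12
  have n24 := ne0 c24
  have u : ∀ i ∈ range N, v (1 - Q ^ (i + 1)) = 1 := fun i hi =>
    h.vk _ (by omega) (by have := mem_range.1 hi; omega)
  set y : ℕ → F := fun k => Q ^ (k + 1) / (1 - Q ^ (k + 1)) with hy
  have vy : ∀ k ∈ range N, v (y k) = 1 := fun k hk => by simp [hy, u k hk, h.vQ]
  have T1 : D v γ 3 (∑ k ∈ range N, (cc Q t (k + 1) * Q ^ (k + 1) -
      ((1 - t) * y k - (1 - t) ^ 2 * (Q ^ (k + 1) / (1 - Q ^ (k + 1)) ^ 2 - y k)))) := by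
    refine D.sum fun k hk => ?_
    have := ne0 (u k hk)
    have hk' := mem_range.1 hk
    have a1 := (((h.TT2 ht h1 (k := k) (by omega)).mul h1).mulr (vy k hk).le).mulr
      (le1_sub (le_of_eq v.map_one) (((h1.mulr (vy k hk).le).div ht).le_one h.g1))
    have a2 := (((((h1.mul h1).mul h1).mulr (vy k hk).le).mulr (vy k hk).le).div ht)
    refine (a1.sub a2).eq ?_
    rw [cc_succ, BB_eq]
    simp only [hy]
    field_simp
    ring
  have T2 : D v γ 2 (∑ k ∈ range N, (y k + y (N - 1 - k) + 1 +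
      (1 - Q ^ (N + 1)) * (Q ^ (k + 1) / (1 - Q ^ (k + 1)) ^ 2))) := by
    refine D.sum fun k hk => ?_
    have hk' := mem_range.1 hk
    have u' := u (N - 1 - k) (mem_range.2 (by omega))
    have := ne0 (u k hk)
    have := ne0 u'
    refine ((((h.U.mul h.U).div (u k hk)).div (u k hk)).div u').eq ?_
    have e : Q ^ (N + 1) = Q ^ (k + 1) * Q ^ (N - 1 - k + 1) := by
      rw [← pow_add]; congr 1; omega
    simp only [hy]
    rw [e]
    field_simp
    ring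
  simp only [sum_add_distrib, sum_sub_distrib, ← mul_sum, sum_range_reflect y N, sum_const,
    card_range, nsmul_eq_mul, mul_one] at T1 T2
  have T3 := h.sigma
  set σ := ∑ k ∈ range N, Q ^ (k + 1) / (1 - Q ^ (k + 1)) ^ 2
  set Y := ∑ k ∈ range N, y k
  have eS : SS Q t (N + 1) = ∑ k ∈ range N, cc Q t (k + 1) * Q ^ (k + 1) + 1 := by
    rw [SS, sum_range_succ']; simp [cc]
  set S1 := ∑ k ∈ range N, cc Q t (k + 1) * Q ^ (k + 1)
  have T2' : D v γ 1 (Y + Y + N) := by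
    have vσ : v σ ≤ 1 := v.map_sum_le fun k hk =>
      le1_div (h.pow _).le (by rw [map_pow, u k hk, one_pow])
    exact ((T2.mono h.g1 (by norm_num)).sub (h.U.mulr vσ)).eq (by ring)
  set ρ' : F := 1 - N * (1 - t) / 2 + N * (N - 2) / 8 * (1 - t) ^ 2 with hρ'
  have vN := h.natle N
  have vN2 : v ((N : F) * (N - 2) / 8) ≤ 1 := le1_div (le1_mul vN (le1_sub vN c2.le)) c8
  have r1 : D v γ 1 (ρ' - 1) :=
    (((h1.mull vN).div c2).neg.add ((h1.mulr (h1.le_one h.g1)).mull vN2)).eq (by rw [hρ']; ring)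
  have r2 : v (ρ + ρ') = 1 := D.unit (Y := 2) h.g1 ((hρ1.add r1).eq (by ring)) c2
  have h3 := (h1.mul h1).mul h1
  have r3 : D v γ 3 (ρ - ρ') := by
    refine D.of_mul ?_ r2
    refine (((h.binom ht h1 N).div c2).add (h3.mulr (le1_mul vN2
      (le1_sub vN (le1_mul vN2 (h1.le_one h.g1)))))).eq ?_
    rw [← hρ, hρ']
    field_simp
    ring
  have vκ : v ((((N : F) + 1) ^ 2 - 1) / 24) ≤ 1 := by
    refine le1_div (le1_sub ?_ (le_of_eq v.map_one)) c24
    rw [sq]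
    exact le1_mul (le1_add vN (le_of_eq v.map_one)) (le1_add vN (le_of_eq v.map_one))
  have S3 : D v γ 3 (SS Q t (N + 1) - ρ' - (((N : F) + 1) ^ 2 - 1) / 24 *
      ((1 - t) * ((1 - Q ^ (N + 1)) - (1 - t)))) := by
    refine ((((T1.add ((h1.mul T2).div c2)).sub (((h1.mul h.U).mul T3).div c2)).sub
      ((h1.mul h1).mul T3)).add (((h1.mul h1).mul T2').div c2)).eq ?_
    rw [eS, hρ']
    field_simp
    ring
  have r4 : D v γ 1 (ρ - t) := (hρ1.add h1).eq (by ring)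
  refine (((r3.sub S3).div vρ).add
    (((((h1.mul (h.U.sub h1)).mul r4).mull vκ).div ht).div vρ)).eq ?_
  field_simp
  ring

end Pool.Agent.P.MP_594717_nt
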