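import Pool.Agent.P.MP_594717_nt.Defs
import Pool.Agent.P.MP_594717_nt.A

/-! The congruence of polynomials in `x` over the local ring is coefficientwise (Gauss). -/

open Finset Polynomial IsDedekindDomain

namespace Pool.Agent.P.MP_594717_nt

/-- Rational functions in `q`. -/
abbrev F1 : Type := FractionRing ℚ[X]

noncomputable def al : ℚ[X] →+* F1 := algebraMap ℚ[X] F1

noncomputable def polH : ℚ[X][X] →+* K := algebraMap ℚ[X][X] K

theorem pol_eq (A : ℚ[X][X]) : pol A = polH A := rfl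

theorem polH_inj : Function.Injective polH := IsFractionRing.injective _ _

theorem al_inj : Function.Injective al := IsFractionRing.injective _ _

noncomputable def io : F1 →+* K :=
  IsFractionRing.lift (g := polH.comp C) (polH_inj.comp C_injective)

theorem io_al (p : ℚ[X]) : io (al p) = polH (C p) := IsFractionRing.lift_algebraMap _ p

noncomputable def ev : F1[X] →+* K := eval₂RingHom io x

theorem ev_C (a : F1) : ev (C a) = io a := by simp [ev]

theorem ev_X : ev X = x := by simp [ev]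

theorem ev_map (A : ℚ[X][X]) : ev (A.map al) = polH A := by
  have : ev.comp (mapRingHom al) = polH :=
    Polynomial.ringHom_ext (fun a => by simp [ev_C, io_al]) (by simp [ev_X, x, pol_eq])
  exact DFunLike.congr_fun this A

variable {P : ℚ[X]}

noncomputable def pr (hP : Irreducible P) : HeightOneSpectrum ℚ[X] :=
  ⟨Ideal.span {P}, (Ideal.span_singleton_prime hP.ne_zero).2 hP.prime, by simpa using hP.ne_zero⟩

noncomputable def vP (hP : Irreducible P) : Valuation F1 (WithZero (Multiplicative ℤ)) :=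
  (pr hP).valuation F1

theorem vP_le (hP : Irreducible P) (p : ℚ[X]) : vP hP (al p) ≤ 1 :=
  HeightOneSpectrum.valuation_le_one _ p

theorem vP_eq (hP : Irreducible P) {p : ℚ[X]} : vP hP (al p) = 1 ↔ ¬P ∣ p := by
  rw [← Ideal.mem_span_singleton]
  exact HeightOneSpectrum.valuation_eq_one_iff_notMem (pr hP)

theorem vP_lt (hP : Irreducible P) : vP hP (al P) < 1 :=
  lt_of_le_of_ne (vP_le hP P) fun h => (vP_eq hP).1 h dvd_rfl

theorem al_ne (hP : Irreducible P) : al P ≠ 0 := (map_ne_zero_iff _ al_inj).2 hP.ne_zero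

theorem clear (hP : Irreducible P) {A : F1[X]} (h : ∀ k, vP hP (A.coeff k) ≤ 1) :
    ∃ (E : ℚ[X]) (B : ℚ[X][X]), ¬P ∣ E ∧ B.map al = C (al E) * A := by
  classical
  choose N E hE using fun k => (pr hP).exists_primeCompl_mul_eq_of_integer (A.coeff k) (h k)
  have : C (al (∏ k ∈ A.support, (E k : ℚ[X]))) * A ∈ lifts al := by
    rw [lifts_iff_coeff_lifts]
    intro k
    rw [coeff_C_mul]
    by_cases hk : k ∈ A.support
    · refine ⟨(∏ i ∈ A.support.erase k, (E i : ℚ[X])) * N k, ?_⟩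
      rw [← prod_erase_mul _ _ hk, map_mul, map_mul, mul_assoc, mul_comm _ (A.coeff k)]
      exact congrArg _ (hE k).symm
    · exact ⟨0, by rw [notMem_support_iff.1 hk, mul_zero, map_zero]⟩
  obtain ⟨B, hB⟩ := this
  refine ⟨_, B, fun hd => ?_, hB⟩
  obtain ⟨k, -, hk⟩ := hP.prime.exists_mem_finset_dvd hd
  exact (E k).2 (Ideal.mem_span_singleton.2 hk)

theorem primeC (hP : Irreducible P) : Prime (C P : ℚ[X][X]) := prime_C_iff.2 hP.prime

theorem loc_ev (hP : Irreducible P) {A : F1[X]} (h : ∀ k, vP hP (A.coeff k) ≤ 1) :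
    Loc P (ev A) := by
  obtain ⟨E, B, hE, hB⟩ := clear hP h
  have h0 : (C E : ℚ[X][X]) ≠ 0 := C_ne_zero.2 fun h => hE (h ▸ dvd_zero P)
  refine ⟨B, C E, h0, ((primeC hP).irreducible.isRelPrime_iff_not_dvd.2 fun hd => hE ?_).symm, ?_⟩
  · simpa using (C_dvd_iff_dvd_coeff _ _).1 hd 0
  · rw [pol_eq, pol_eq, eq_div_iff ((map_ne_zero_iff _ polH_inj).2 h0), ← ev_map B, hB, map_mul,
      ev_C, io_al, mul_comm]

theorem cong_ev (hP : Irreducible P) {A B : F1[X]} (hA : ∀ k, vP hP (A.coeff k) ≤ 1)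
    (hB : ∀ k, vP hP (B.coeff k) ≤ 1) (j : ℕ) :
    Cong P j (ev A) (ev B) ↔ ∀ k, D (vP hP) (vP hP (al P)) j (A.coeff k - B.coeff k) := by
  have hne := al_ne hP
  constructor
  · rintro ⟨-, -, E, ⟨N, Dn, h0, hc, rfl⟩, he⟩ k
    obtain ⟨E', B', hE, hB'⟩ := clear hP (A := A - B) fun k => by
      rw [coeff_sub]; exact le1_sub (hA k) (hB k)
    have hD : polH Dn ≠ 0 := (map_ne_zero_iff _ polH_inj).2 h0
    have e : Dn * B' = C P ^ j * (C E' * N) := by
      apply polH_inj
      rw [map_mul, ← ev_map B', hB', map_mul, map_sub, he, ev_C, io_al]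
      simp only [pol_eq, map_mul, map_pow]
      field_simp
    have hd := (primeC hP).pow_dvd_of_dvd_mul_left j
      ((primeC hP).irreducible.isRelPrime_iff_not_dvd.1 hc.symm) ⟨_, e⟩
    rw [← C_pow, C_dvd_iff_dvd_coeff] at hd
    obtain ⟨t, ht⟩ := hd k
    have e2 := congrArg (fun R => R.coeff k) hB'
    simp only [coeff_map, coeff_C_mul, coeff_sub, ht, map_mul, map_pow] at e2
    refine D.of_mul (Y := al E') ?_ ((vP_eq hP).2 hE)
    rw [← e2]
    exact D.mulr (by simp [D]) (vP_le hP t)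
  · intro h
    refine ⟨loc_ev hP hA, loc_ev hP hB, ev (C (al P ^ j)⁻¹ * (A - B)), loc_ev hP fun k => ?_, ?_⟩
    · have hv : 0 < vP hP (al P) ^ j := pow_pos (zero_lt_iff.2 (by simpa using hne)) j
      rw [coeff_C_mul, coeff_sub, map_mul, map_inv₀, map_pow, inv_mul_le_iff₀ hv, mul_one]
      exact h k
    · have : io (al P) ≠ 0 := by simpa using hne
      rw [map_mul, ev_C, map_sub, pol_eq, ← io_al, map_inv₀, map_pow]
      field_simp

theorem cyc_dvd {n : ℕ} (hn : 0 < n) {e : ℕ} (h : cyclotomic n ℚ ∣ 1 - X ^ e) : n ∣ e := by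
  have hz := Complex.isPrimitiveRoot_exp n hn.ne'
  have hr := hz.isRoot_cyclotomic hn
  rw [← map_cyclotomic n (algebraMap ℚ ℂ)] at hr
  have := hr.dvd (Polynomial.map_dvd (algebraMap ℚ ℂ) h)
  simp only [Polynomial.map_sub, Polynomial.map_one, Polynomial.map_pow, map_X, IsRoot.def,
    eval_sub, eval_one, eval_pow, eval_X] at this
  exact (hz.pow_eq_one_iff_dvd e).1 (sub_eq_zero.1 this).symm

theorem cyc_val {n : ℕ} (hn : 0 < n) :
    vP (cyclotomic.irreducible_rat hn) (1 - al X ^ n) =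
      vP (cyclotomic.irreducible_rat hn) (al (cyclotomic n ℚ)) := by
  obtain ⟨R, hR⟩ := cyclotomic.dvd_X_pow_sub_one n ℚ
  have hs : Squarefree (X ^ n - 1 : ℚ[X]) :=
    (X_pow_sub_one_separable_iff.2 (by exact_mod_cast hn.ne')).squarefree
  have hd : ¬cyclotomic n ℚ ∣ R := fun hd =>
    (cyclotomic.irreducible_rat hn).not_isUnit (hs _ (hR ▸ mul_dvd_mul_left _ hd))
  have e : 1 - al X ^ n = -(al (cyclotomic n ℚ) * al R) := by
    rw [← map_mul, ← hR]; simp
  rw [e, Valuation.map_neg, map_mul, (vP_eq _).2 hd, mul_one]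

theorem cyc_H {n : ℕ} (hn : 0 < n) : H (vP (cyclotomic.irreducible_rat hn))
    (vP (cyclotomic.irreducible_rat hn) (al (cyclotomic n ℚ))) n (al X) where
  g1 := vP_lt _
  int k hk := by
    rw [← map_intCast al, vP_eq, ← map_intCast (C : ℚ →+* ℚ[X])]
    exact fun hd => (cyclotomic.irreducible_rat hn).not_isUnit
      (isUnit_of_dvd_unit hd (isUnit_C.2 (Ne.isUnit (by exact_mod_cast hk))))
  vQ := by
    rw [vP_eq]
    intro hd
    have h1 := cyclotomic.dvd_X_pow_sub_one n ℚ
    have h2 := (dvd_pow hd hn.ne').sub h1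
    rw [sub_sub_cancel] at h2
    exact (cyclotomic.irreducible_rat hn).not_isUnit (isUnit_of_dvd_one h2)
  vk k h0 h1 := by
    have e : 1 - al X ^ k = al (1 - X ^ k) := by simp
    rw [e, vP_eq]
    exact fun hd => absurd (Nat.le_of_dvd h0 (cyc_dvd hn hd)) (by omega)
  vU := (cyc_val hn).le

end Pool.Agent.P.MP_594717_nt
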