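import Pool.Agent.P.MP_594717_nt.B

/-! The contiguity recursion, the q-Legendre operator and the third order congruence for the
coefficients. -/

open Finset Polynomial

namespace Pool.Agent.P.MP_594717_nt

variable {F : Type*} [Field F] {Γ : Type*} [LinearOrderedCommGroupWithZero Γ]
variable {v : Valuation F Γ} {γ : Γ} {n : ℕ} {Q : F}

def lam (Q t ρ : F) (j : ℕ) : F := (-1) ^ j * t ^ j / (Q ^ (j + 1).choose 2 * ρ)

def w0 (Q : F) (N a : ℕ) : F := -((((N : F) + 1) ^ 2 - 1) / 24) +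
  ∑ j ∈ range a, (-1) ^ (j + 1) * (1 + Q ^ (j + 1)) / (Q ^ (j + 1).choose 2 * (1 - Q ^ (j + 1)) ^ 2)

theorem choose_succ (j : ℕ) : (j + 1 + 1).choose 2 = (j + 1).choose 2 + (j + 1) := by
  rw [Nat.choose_succ_succ' (j + 1) 1, Nat.choose_one_right, add_comm]

theorem delta_step (hQ : Q ≠ 0) {t ρ : F} (ht : t ≠ 0) (hρ : ρ ≠ 0) (N j : ℕ)
    (h : ∀ k < N, 1 - Q ^ (k + 1) ≠ 0) :
    1 - lam Q t ρ (j + 1) * SS Q (t / Q ^ (j + 1)) (N + 1) =
      1 - lam Q t ρ j * SS Q (t / Q ^ j) (N + 1) +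
        lam Q t ρ j * (1 + t / Q ^ (j + 1)) * TT Q (t / Q ^ (j + 1)) N := by
  have hc := contig hQ (z := t / Q ^ (j + 1)) (div_ne_zero ht (pow_ne_zero _ hQ)) N h
  have e : t / Q ^ (j + 1) * Q = t / Q ^ j := by field_simp; ring
  have e2 : lam Q t ρ (j + 1) = -(lam Q t ρ j * (t / Q ^ (j + 1))) := by
    rw [lam, lam, choose_succ]; field_simp; ring
  rw [e] at hc
  rw [e2]
  linear_combination (lam Q t ρ j) * hc

theorem H.vlam (h : H v γ n Q) {t ρ : F} (ht : v t = 1) (hρ : v ρ = 1) (j : ℕ) :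
    v (lam Q t ρ j) = 1 := by simp [lam, ht, hρ, h.vQ]

theorem H.delta {N : ℕ} (h : H v γ (N + 1) Q) {t ρ : F} (ht : v t = 1) (h1 : D v γ 1 (1 - t))
    (hρ : ρ ^ 2 = t ^ N) (hρ1 : D v γ 1 (ρ - 1)) {a : ℕ} (ha : a ≤ N) :
    D v γ 3 (1 - lam Q t ρ a * SS Q (t / Q ^ a) (N + 1) -
      (1 - t) * (1 - Q ^ (N + 1) / t) * w0 Q N a) := by
  have ht0 := ne0 ht
  have hQ := ne0 h.vQ
  have vρ := hρ1.unit h.g1 v.map_one
  have hρ0 := ne0 vρ
  induction a with
  | zero => exact (h.base ht h1 hρ hρ1).eq (by simp [lam, w0]; ring)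
  | succ j ih =>
    have ih' := ih (by omega)
    rw [delta_step hQ ht0 hρ0 N j fun k hk => ne0 (h.vk _ (by omega) (by omega))]
    have hu := h.vk (j + 1) (by omega) (by omega)
    have hα := h.pow (j + 1)
    have hB := h.BB ha ht h1
    rw [BB_eq] at hB
    set α := Q ^ (j + 1) with hαd
    have hu0 := ne0 hu
    have hα0 := ne0 hα
    have vz : v (t / α) = 1 := by simp [ht, hα]
    have u' : v (1 - 1 / α) = 1 := by
      have : 1 - 1 / α = -(1 - α) / α := by field_simp; ring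
      rw [this, map_div₀, v.map_neg, hu, hα, div_one]
    have m1 : D v γ 1 ((1 - t / α) - (1 - 1 / α)) := (h1.div hα).eq (by ring)
    have m2 : D v γ 1 ((1 - Q ^ (N + 1) / (t / α)) - (1 - α)) :=
      ((h.dual ht h1).mulr hα.le).eq (by field_simp; ring)
    have m3 := D.cmul m1 m2 (le1_one_sub vz) hu.le
    have vM' : v ((1 - 1 / α) * (1 - α)) = 1 := by rw [map_mul, u', hu, one_mul]
    have vM := m3.unit h.g1 vM'
    have vC := h.pow ((j + 1).choose 2)
    have l1 : D v γ 1 (lam Q t ρ j - (-1) ^ j * 1 / (Q ^ (j + 1).choose 2 * 1)) :=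
      D.cdiv (((h1.one_sub_pow ht.le j).neg.mull (Y := (-1) ^ j) (by simp)).eq (by ring))
        ((hρ1.mull vC.le).eq (by ring)) (by simp) (by rw [map_mul, vC, vρ, one_mul])
        (by rw [mul_one, vC])
    have l2 : D v γ 1 ((1 + t / α) - (1 + 1 / α)) := (h1.div hα).neg.eq (by ring)
    have v1 : v (1 + 1 / α) ≤ 1 := le1_add (by simp) (by simp [hα])
    have l3 := D.cdiv (D.cmul l1 l2 (h.vlam ht vρ j).le v1) m3
      (le1_mul (by simp [h.vQ]) v1) vM vM'
    have l4 := (hB.mull (le1_mul (h.vlam ht vρ j).le (le1_add (le_of_eq v.map_one) vz.le))).div vM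
    have hM := ne0 vM
    have hC := ne0 vC
    have hu' := ne0 u'
    refine ((ih'.add l4).add ((h.eps ht h1).mul l3)).eq ?_
    have e : (-1) ^ j * 1 / (Q ^ (j + 1).choose 2 * 1) * (1 + 1 / α) / ((1 - 1 / α) * (1 - α)) =
        (-1) ^ (j + 1) * (1 + α) / (Q ^ (j + 1).choose 2 * (1 - α) ^ 2) := by
      have : 1 - 1 / α = -(1 - α) / α := by field_simp; ring
      rw [this]
      field_simp
      ring
    rw [e]
    simp only [w0, sum_range_succ]
    rw [← hαd]
    generalize (1 - t / α) * (1 - Q ^ (N + 1) / (t / α)) = M at hM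
    field_simp
    ring

/-- `(x;Q)_k` as a polynomial in `x`. -/
noncomputable def ph (Q : F) (k : ℕ) : F[X] := ∏ i ∈ range k, (1 - X * C Q ^ i)

noncomputable def ps (Q : F) (k : ℕ) : F[X] := ∏ i ∈ range k, (1 - X * C Q ^ (i + 1))

noncomputable def GG (Q z : F) (N : ℕ) : F[X] := ∑ k ∈ range N, C (cc Q z k * Q ^ k) * ph Q k

noncomputable def th (Q : F) (P : F[X]) : F[X] := P.comp (C Q * X)

noncomputable def LL (Q w : F) (P : F[X]) : F[X] :=
  P - 2 * th Q P + th Q (th Q P) - X * (P - C w * th Q P + C Q * th Q (th Q P))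

theorem th_ph (k : ℕ) : th Q (ph Q k) = ps Q k := by
  simp only [th, ph, ps, Polynomial.prod_comp]
  exact prod_congr rfl fun i _ => by simp; ring

theorem ph_succ (k : ℕ) : ph Q (k + 1) = (1 - X) * ps Q k := by
  rw [ph, prod_range_succ', ps]; simp; ring

theorem ps_succ (k : ℕ) : ps Q (k + 1) = ps Q k * (1 - X * C Q ^ (k + 1)) := prod_range_succ _ _

theorem th_ps (k : ℕ) : (1 - C Q * X) * th Q (ps Q k) = ps Q (k + 1) := by
  rw [← th_ph (k + 1), ph_succ]; simp [th]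

theorem LL_add (w : F) (P R : F[X]) : LL Q w (P + R) = LL Q w P + LL Q w R := by
  simp only [LL, th, add_comp]; ring

theorem LL_C (w c : F) (P : F[X]) : LL Q w (C c * P) = C c * LL Q w P := by
  simp only [LL, th, mul_comp, C_comp]; ring

theorem LL_coeff (w : F) (P : F[X]) (k : ℕ) : (LL Q w P).coeff (k + 1) =
    (1 - Q ^ (k + 1)) ^ 2 * P.coeff (k + 1) - (1 - w * Q ^ k + Q ^ (2 * k + 1)) * P.coeff k := by
  have e : (2 : F[X]) = C 2 := rfl
  simp only [LL, th, e, coeff_sub, coeff_add, coeff_X_mul, coeff_C_mul, comp_C_mul_X_coeff]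
  ring

theorem LL_ph (w : F) (k : ℕ) : C Q ^ (k + 1) * LL Q w (ph Q (k + 1)) =
    X * ((1 - C Q ^ (k + 1)) ^ 2 * ps Q k -
      (1 - C w * C Q ^ (k + 1) + C Q ^ (2 * (k + 1) + 1)) * ps Q (k + 1)) := by
  have h := th_ps (Q := Q) (k + 1)
  rw [ps_succ (k + 1)] at h
  rw [LL, th_ph, ph_succ]
  generalize th Q (ps Q (k + 1)) = R at h
  rw [ps_succ] at h ⊢
  linear_combination (C Q ^ (k + 1)) * h

theorem Ak_eq {z : F} (hz : z ≠ 0) (k : ℕ) :
    Ak Q z k = 1 - (z + Q / z) * Q ^ k + Q ^ (2 * k + 1) := by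
  rw [Ak]; field_simp; ring

theorem LL_GG {z : F} (hz : z ≠ 0) (N : ℕ) (h : ∀ k < N, 1 - Q ^ (k + 1) ≠ 0) :
    LL Q (z + Q / z) (GG Q z (N + 1)) = -(C (BB Q z N) * (X * ps Q N)) := by
  induction N with
  | zero =>
    rw [BB, Ak_eq hz]
    simp [GG, cc, ph, ps, LL, th]
    ring
  | succ N ih =>
    have ih' := ih fun k hk => h k (by omega)
    have hN := h N (by omega)
    have e : cc Q z (N + 1) * (1 - Q ^ (N + 1)) ^ 2 = BB Q z N := by
      rw [cc_succ]; field_simp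
    rw [GG, sum_range_succ, ← GG, LL_add, ih', LL_C, map_mul, map_pow, mul_assoc, LL_ph, ← e, BB,
      Ak_eq hz]
    simp only [map_mul, map_add, map_sub, map_pow, map_one]
    ring

theorem GG_rec {z : F} (hz : z ≠ 0) (N : ℕ) (h : ∀ k < N, 1 - Q ^ (k + 1) ≠ 0) (k : ℕ) :
    (1 - Q ^ (k + 1)) ^ 2 * (GG Q z (N + 1)).coeff (k + 1) =
      Ak Q z k * (GG Q z (N + 1)).coeff k - BB Q z N * (ps Q N).coeff k := by
  have := congrArg (fun P => P.coeff (k + 1)) (LL_GG hz N h)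
  simp only [LL_coeff, coeff_neg, coeff_C_mul, coeff_X_mul] at this
  rw [Ak_eq hz]
  linear_combination this

theorem ph_zero (k : ℕ) : (ph Q k).coeff 0 = 1 := by
  rw [coeff_zero_eq_eval_zero, ph, eval_prod]; simp

theorem GG_zero (z : F) (N : ℕ) : (GG Q z N).coeff 0 = SS Q z N := by
  simp only [GG, SS, finsetSum_coeff, coeff_C_mul, ph_zero, mul_one]

theorem H.ps {N : ℕ} (h : H v γ (N + 1) Q) (k : ℕ) (hk : k ≤ N) :
    D v γ 1 ((ps Q N).coeff k - 1) := by
  induction k with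
  | zero =>
    have : (MP_594717_nt.ps Q N).coeff 0 = 1 := by
      rw [coeff_zero_eq_eval_zero, MP_594717_nt.ps, eval_prod]; simp
    rw [this, sub_self]; exact D.zero 1
  | succ k ih =>
    have ih' := ih (by omega)
    have e := th_ps (Q := Q) N
    rw [ps_succ] at e
    have e2 : th Q (MP_594717_nt.ps Q N) - C Q * (X * th Q (MP_594717_nt.ps Q N)) =
        MP_594717_nt.ps Q N - C (Q ^ (N + 1)) * (X * MP_594717_nt.ps Q N) := by
      rw [map_pow]; linear_combination e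
    have e3 := congrArg (fun P => P.coeff (k + 1)) e2
    simp only [th, coeff_sub, coeff_C_mul, coeff_X_mul, comp_C_mul_X_coeff] at e3
    have hu := h.vk (k + 1) (by omega) (by omega)
    have vk := (ih'.unit h.g1 v.map_one).le
    refine D.of_mul ?_ hu
    exact ((ih'.mull hu.le).sub (h.U.mulr vk)).eq (by linear_combination -e3)

def ww (Q z l w : F) : ℕ → F
  | 0 => w
  | k + 1 => (Ak Q z k * ww Q z l w k + l) / (1 - Q ^ (k + 1)) ^ 2

theorem H.vAk (h : H v γ n Q) {z : F} (hz : v z = 1) (k : ℕ) : v (Ak Q z k) ≤ 1 :=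
  le1_mul (le1_one_sub (by simp [hz, h.vQ])) (le1_one_sub (by simp [hz, h.vQ]))

/-- The recursion for the coefficients of the difference, for any multiplier. -/
theorem diff_rec {z : F} (hz : z ≠ 0) (N : ℕ) (h : ∀ k < N, 1 - Q ^ (k + 1) ≠ 0) (l : F) {k : ℕ}
    (hk : k < N) :
    (1 - Q ^ (k + 1)) ^ 2 * (cc Q z (k + 1) - l * (GG Q z (N + 1)).coeff (k + 1)) =
      Ak Q z k * (cc Q z k - l * (GG Q z (N + 1)).coeff k) + l * (BB Q z N * (ps Q N).coeff k) := by
  have e : (1 - Q ^ (k + 1)) ^ 2 * cc Q z (k + 1) = Ak Q z k * cc Q z k := by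
    have := h k hk
    rw [cc_succ, BB]; field_simp
  linear_combination e - l * GG_rec hz N h k

theorem H.main {N : ℕ} (h : H v γ (N + 1) Q) {t ρ : F} (ht : v t = 1) (h1 : D v γ 1 (1 - t))
    (hρ : ρ ^ 2 = t ^ N) (hρ1 : D v γ 1 (ρ - 1)) {a : ℕ} (ha : a ≤ N) (k : ℕ) (hk : k ≤ N) :
    D v γ 3 (cc Q (t / Q ^ a) k - lam Q t ρ a * (GG Q (t / Q ^ a) (N + 1)).coeff k -
      (1 - t) * (1 - Q ^ (N + 1) / t) * ww Q (t / Q ^ a) (lam Q t ρ a) (w0 Q N a) k) := by
  have vρ := hρ1.unit h.g1 v.map_one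
  have vz : v (t / Q ^ a) = 1 := by simp [ht, h.vQ]
  induction k with
  | zero => simpa [cc, GG_zero, ww] using h.delta ht h1 hρ hρ1 ha
  | succ k ih =>
    have ih' := ih (by omega)
    have hu := h.vk (k + 1) (by omega) (by omega)
    have hu0 := ne0 hu
    have e := diff_rec (ne0 vz) N (fun k hk => ne0 (h.vk _ (by omega) (by omega)))
      (lam Q t ρ a) (k := k) (by omega)
    have p := h.ps k (by omega)
    refine D.of_mul (Y := (1 - Q ^ (k + 1)) ^ 2) ?_ (by rw [map_pow, hu, one_pow])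
    refine ((ih'.mull (h.vAk vz k)).add ((((h.BB ha ht h1).mulr (p.unit h.g1 v.map_one).le).add
      ((h.eps ht h1).mul p)).mull (h.vlam ht vρ a).le)).eq ?_
    rw [mul_sub, e, ww]
    field_simp
    ring

/-- The terminating case: an identity. -/
theorem exact_one (hQ : Q ≠ 0) {N : ℕ} (h : ∀ k < N, 1 - Q ^ (k + 1) ≠ 0) {a : ℕ} (ha : a ≤ N)
    (k : ℕ) (hk : k ≤ N) :
    cc Q (1 / Q ^ a) k = lam Q 1 1 a * (GG Q (1 / Q ^ a) (N + 1)).coeff k := by
  have hB : ∀ j ≤ N, BB Q (1 / Q ^ j) N = 0 := fun j hj => by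
    rw [BB_prod, prod_eq_zero (i := j) (mem_range.2 (by omega)) (by field_simp; ring)]; simp
  have h0 : ∀ j ≤ N, 1 - lam Q 1 1 j * SS Q (1 / Q ^ j) (N + 1) = 0 := by
    intro j hj
    induction j with
    | zero =>
      rw [SS, sum_range_succ']
      simp only [cc_succ, BB_eq]
      simp [lam, cc]
    | succ j ih =>
      rw [delta_step hQ one_ne_zero one_ne_zero N j h, ih (by omega), TT,
        prod_eq_zero (i := j) (mem_range.2 (by omega))
          (by rw [one_div_mul_cancel (pow_ne_zero _ hQ)]; simp)]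
      simp
  induction k with
  | zero =>
    have := h0 a ha
    rw [GG_zero, cc, prod_range_zero]
    linear_combination this
  | succ k ih =>
    have e := diff_rec (z := 1 / Q ^ a) (one_div_ne_zero (pow_ne_zero _ hQ)) N h (lam Q 1 1 a)
      (k := k) (by omega)
    rw [ih (by omega), hB a ha, sub_self, mul_zero, zero_mul, mul_zero, add_zero] at e
    exact sub_eq_zero.1 ((mul_eq_zero.1 e).resolve_left (pow_ne_zero _ (h k (by omega))))

end Pool.Agent.P.MP_594717_nt
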