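import Mathlib

/-! Rational functions in `q` and `x`, congruences, and the two truncated sums. -/

open Finset Polynomial

namespace Pool.Agent.P.MP_594717_nt

/-- The field of rational functions in `q` (inner variable) and `x` (outer variable). -/
abbrev K : Type := FractionRing ℚ[X][X]

/-- A polynomial in `q` and `x` as a rational function. -/
noncomputable def pol (A : ℚ[X][X]) : K := algebraMap ℚ[X][X] K A

/-- The indeterminate `q`. -/
noncomputable def q : K := pol (C X)

/-- The indeterminate `x`. -/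
noncomputable def x : K := pol X

/-- `A` is a rational function with a denominator coprime to the polynomial `P(q)`. -/
def Loc (P : ℚ[X]) (A : K) : Prop :=
  ∃ N D : ℚ[X][X], D ≠ 0 ∧ IsRelPrime D (C P) ∧ A = pol N / pol D

/-- `A ≡ B` modulo `P(q) ^ j`: both have denominators coprime to `P`, and `A - B = P ^ j * E` with
`E` of the same kind. -/
def Cong (P : ℚ[X]) (j : ℕ) (A B : K) : Prop :=
  Loc P A ∧ Loc P B ∧ ∃ E, Loc P E ∧ A - B = pol (C P) ^ j * E

/-- The `q`-shifted factorial `(a;b)_k`. -/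
noncomputable def poch (a b : K) (k : ℕ) : K := ∏ i ∈ range k, (1 - a * b ^ i)

/-- `c_k = (q^r;q^m)_k (q^(m-r);q^m)_k / (q^m;q^m)_k^2`. -/
noncomputable def c (m : ℕ) (r : ℤ) (k : ℕ) : K :=
  poch (q ^ r) (q ^ m) k * poch (q ^ ((m : ℤ) - r)) (q ^ m) k / poch (q ^ m) (q ^ m) k ^ 2

/-- The left sum. -/
noncomputable def lhs (n m : ℕ) (r : ℤ) : K := ∑ k ∈ range n, c m r k * x ^ k

/-- The right sum. -/
noncomputable def rhs (n m : ℕ) (r : ℤ) : K :=
  ∑ k ∈ range n, c m r k * q ^ (m * k) * poch x (q ^ m) k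

/-- The least nonnegative residue of `-r/m` modulo `n`. -/
def res (n m : ℕ) (r : ℤ) : ℕ := (-(r : ZMod n) * (m : ZMod n)⁻¹).val

/-- The coefficients of the second order term, for the multiplier `l`. -/
noncomputable def w (n m : ℕ) (r : ℤ) (l : K) : ℕ → K
  | 0 => -(((n : K) ^ 2 - 1) / 24) + ∑ j ∈ Icc 1 (res n m r),
      (-1) ^ j * (1 + q ^ (m * j)) / (q ^ (m * j.choose 2) * (1 - q ^ (m * j)) ^ 2)
  | k + 1 => ((1 - q ^ (r + m * k)) * (1 - q ^ (m - r + m * k)) * w n m r l k + l) /
      (1 - q ^ (m * (k + 1))) ^ 2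

end Pool.Agent.P.MP_594717_nt
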