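import Pool.Agent.P.MP_594717_nt.C

/-! Specialisation to powers of one element `q`; the exact order of the congruence. -/

open Finset Polynomial

namespace Pool.Agent.P.MP_594717_nt

variable {F : Type*} [Field F] {Γ : Type*} [LinearOrderedCommGroupWithZero Γ]
variable {v : Valuation F Γ} {γ : Γ} {n : ℕ} {q : F}

theorem D.one_sub_zpow {X : F} (hX : v X = 1) {j : ℕ} (h : D v γ j (1 - X)) (e : ℤ) :
    D v γ j (1 - X ^ e) := by
  obtain ⟨k, rfl | rfl⟩ := Int.eq_nat_or_neg e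
  · simpa using h.one_sub_pow hX.le k
  · have := ne0 hX
    refine ((h.one_sub_pow hX.le k).div (Y := X ^ k) (by simp [hX])).neg.eq ?_
    rw [zpow_neg, zpow_natCast]; field_simp; ring

theorem D.lin_pow {X : F} (hX : v X = 1) (h : D v γ 1 (1 - X)) (k : ℕ) :
    D v γ 2 (1 - X ^ k - k * (1 - X)) := by
  induction k with
  | zero => simpa using D.zero 2
  | succ k ih => exact (ih.sub (h.mul (h.one_sub_pow hX.le k))).eq (by push_cast; ring)

theorem D.lin_zpow {X : F} (hX : v X = 1) (h : D v γ 1 (1 - X)) (e : ℤ) :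
    D v γ 2 (1 - X ^ e - e * (1 - X)) := by
  obtain ⟨k, rfl | rfl⟩ := Int.eq_nat_or_neg e
  · simpa using h.lin_pow hX k
  · have := ne0 hX
    have h1 := h.one_sub_pow hX.le k
    refine ((h.lin_pow hX k).neg.sub ((h1.mul h1).div (Y := X ^ k) (by simp [hX]))).eq ?_
    rw [zpow_neg, zpow_natCast]; push_cast; field_simp; ring

theorem H.zpow (h : H v γ n q) (e : ℤ) : v (q ^ e) = 1 := by simp [h.vQ]

theorem H.Uz (h : H v γ n q) (e : ℤ) : D v γ 1 (1 - q ^ (e * n)) := by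
  have := h.U.one_sub_zpow (h.pow n) e
  rwa [← zpow_natCast, ← zpow_mul, mul_comm] at this

theorem H.vz (h : H v γ n q) (hn : 0 < n) {e : ℤ} (he : ¬(n : ℤ) ∣ e) : v (1 - q ^ e) = 1 := by
  have hq := ne0 h.vQ
  have h0 : 0 ≤ e % n := Int.emod_nonneg _ (by omega)
  have h1 : e % n < n := Int.emod_lt_of_pos _ (by omega)
  have h2 : e % n ≠ 0 := fun hh => he (Int.dvd_of_emod_eq_zero hh)
  obtain ⟨k, hk⟩ := Int.eq_ofNat_of_zero_le h0
  have e1 : q ^ e = q ^ k * q ^ (e / n * n) := by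
    rw [← zpow_natCast, ← zpow_add₀ hq, ← hk, Int.emod_add_ediv_mul]
  refine D.unit h.g1 ?_ (h.vk k (by omega) (by omega))
  exact ((h.Uz (e / n)).mull (h.pow k).le).eq (by rw [e1]; ring)

theorem H.cop (h : H v γ n q) (hn : 0 < n) {m : ℕ} (hm : m.Coprime n) : H v γ n (q ^ m) where
  g1 := h.g1
  int := h.int
  vQ := h.pow m
  vk k h0 h1 := by
    rw [← pow_mul, ← zpow_natCast]
    refine h.vz hn fun hd => ?_
    have := hm.symm.dvd_of_dvd_mul_left (Int.natCast_dvd_natCast.1 hd)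
    exact absurd (Nat.le_of_dvd h0 this) (by omega)
  vU := by
    have := h.U.one_sub_pow (h.pow n).le m
    rw [← pow_mul, mul_comm, pow_mul] at this
    simpa [D] using this

theorem two_choose (k : ℕ) : 2 * (k + 1).choose 2 = (k + 1) * k := by
  induction k with
  | zero => rfl
  | succ k ih => rw [choose_succ, mul_add, ih]; ring

theorem H.rho {N : ℕ} (h : H v γ (N + 1) q) : D v γ 1 (1 - (-1) ^ N * q ^ (N + 1).choose 2) := by
  have e := two_choose N
  rcases Nat.even_or_odd' N with ⟨b, rfl | rfl⟩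
  · have e2 : (2 * b + 1).choose 2 = (2 * b + 1) * b := by nlinarith
    rw [e2, pow_mul, pow_mul]
    simpa using h.U.one_sub_pow (h.pow _).le b
  · have e2 : (2 * b + 1 + 1).choose 2 = (b + 1) * (2 * b + 1) := by nlinarith
    rw [e2, pow_mul q, ← mul_pow]
    refine D.one_sub_pow (by simp [h.vQ]) (D.of_mul ?_ (h.vk (b + 1) (by omega) (by omega))) _
    exact h.U.eq (by ring)

theorem H.vcc (h : H v γ n q) {z : F} (hz : v z = 1) {k : ℕ} (hk : k < n) : v (cc q z k) ≤ 1 :=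
  le1_prod fun i hi => le1_div (h.vAk hz i)
    (by rw [map_pow, h.vk _ (by omega) (by have := mem_range.1 hi; omega), one_pow])

theorem H.vww (h : H v γ n q) {z l w : F} (hz : v z = 1) (hl : v l ≤ 1) (hw : v w ≤ 1) (k : ℕ)
    (hk : k < n) : v (ww q z l w k) ≤ 1 := by
  induction k with
  | zero => exact hw
  | succ k ih =>
    exact le1_div (le1_add (le1_mul (h.vAk hz k) (ih (by omega))) hl)
      (by rw [map_pow, h.vk _ (by omega) hk, one_pow])

theorem H.vw0 {N a : ℕ} (h : H v γ (N + 1) q) (ha : a ≤ N) : v (w0 q N a) ≤ 1 := by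
  have c24 : v (24 : F) = 1 := by have := h.nat (k := 24) (by norm_num); simpa using this
  have vN := h.natle N
  refine le1_add ?_ (v.map_sum_le fun j hj => le1_div (le1_mul (by simp)
    (le1_add (by simp) (h.pow _).le)) ?_)
  · rw [v.map_neg]
    refine le1_div (le1_sub ?_ (le_of_eq v.map_one)) c24
    rw [sq]
    exact le1_mul (le1_add vN (le_of_eq v.map_one)) (le1_add vN (le_of_eq v.map_one))
  · rw [map_mul, map_pow v (1 - _), h.vk _ (by omega) (by have := mem_range.1 hj; omega), h.pow]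
    simp

/-- The data of the congruence. -/
structure Dat (N m a : ℕ) (r s f : ℤ) : Prop where
  cop : m.Coprime (N + 1)
  m0 : 0 < m
  ha : a ≤ N
  hs : r + a * m = s * (N + 1 : ℕ)
  hf : 2 * m * f = r * (m - r) - s * (m - s) * (N + 1 : ℕ) ^ 2

theorem Dat.f_eq {N m a : ℕ} {r s f : ℤ} (d : Dat N m a r s f) :
    f = s * (N + 1 : ℕ) * a - m * ((a + 1).choose 2 : ℕ) - s * ((N + 1).choose 2 : ℕ) := by
  have e1 : (2 : ℤ) * ((a + 1).choose 2 : ℕ) = (a + 1) * a := by exact_mod_cast two_choose a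
  have e2 : (2 : ℤ) * ((N + 1).choose 2 : ℕ) = (N + 1) * N := by exact_mod_cast two_choose N
  have hm : (2 * m : ℤ) ≠ 0 := by have := d.m0; omega
  have hs := d.hs
  have hf := d.hf
  push_cast at hs hf
  have hr : r = s * (N + 1) - a * m := by linear_combination hs
  refine mul_left_cancel₀ hm ?_
  rw [hf, hr, Nat.cast_add_one N]
  linear_combination (m : ℤ) * m * e1 + m * s * e2

theorem Dat.z_eq (hq : q ≠ 0) {N m a : ℕ} {r s f : ℤ} (d : Dat N m a r s f) :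
    q ^ r = q ^ (s * (N + 1 : ℕ)) / (q ^ m) ^ a := by
  rw [← d.hs, zpow_add₀ hq, ← pow_mul, ← zpow_natCast q (m * a), mul_comm m a]
  push_cast
  rw [mul_div_cancel_right₀ _ (zpow_ne_zero _ hq)]

theorem Dat.lam_eq (hq : q ≠ 0) {N m a : ℕ} {r s f : ℤ} (d : Dat N m a r s f) :
    (-1) ^ ((a : ℤ) + s * N) * q ^ f =
      lam (q ^ m) (q ^ (s * (N + 1 : ℕ))) (((-1) ^ N * q ^ (N + 1).choose 2) ^ s) a := by
  have hn : (-1 : F) ≠ 0 := neg_ne_zero.2 one_ne_zero
  have e : ((-1 : F) ^ N) ^ s * ((-1 : F) ^ N) ^ s = 1 := by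
    rw [← mul_zpow, ← mul_pow]; simp
  rw [d.f_eq, lam, zpow_add₀ hn, zpow_sub₀ hq, zpow_sub₀ hq, mul_zpow, mul_comm s (N : ℤ),
    mul_comm s (((N + 1).choose 2 : ℕ) : ℤ)]
  simp only [zpow_mul, zpow_natCast]
  have h1 : ((-1 : F) ^ N) ^ s ≠ 0 := zpow_ne_zero _ (pow_ne_zero _ hn)
  have h2 : (q ^ (N + 1).choose 2) ^ s ≠ 0 := zpow_ne_zero _ (pow_ne_zero _ hq)
  field_simp
  linear_combination e

theorem H.third {N m a : ℕ} {r s f : ℤ} (h : H v γ (N + 1) q) (d : Dat N m a r s f) (k : ℕ)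
    (hk : k ≤ N) :
    D v γ 3 (cc (q ^ m) (q ^ r) k - (-1) ^ ((a : ℤ) + s * N) * q ^ f *
      (GG (q ^ m) (q ^ r) (N + 1)).coeff k - s * (m - s) * (1 - q ^ (N + 1)) ^ 2 *
        ww (q ^ m) (q ^ r) ((-1) ^ ((a : ℤ) + s * N) * q ^ f) (w0 (q ^ m) N a) k) := by
  have hq := ne0 h.vQ
  have hQ := h.cop (by omega) d.cop
  have v1 : v ((-1) ^ N * q ^ (N + 1).choose 2) = 1 := by simp [h.vQ]
  have hρ : (((-1) ^ N * q ^ (N + 1).choose 2) ^ s) ^ 2 = (q ^ (s * (N + 1 : ℕ))) ^ N := by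
    have e0 : ((-1) ^ N * q ^ (N + 1).choose 2) ^ 2 = (q ^ (N + 1)) ^ N := by
      rw [mul_pow, ← pow_mul, ← pow_mul, mul_comm N, mul_comm _ 2, two_choose, pow_mul, pow_mul]
      simp
    rw [← zpow_natCast _ 2, ← zpow_mul, mul_comm s, zpow_mul, zpow_natCast, e0, mul_comm s,
      zpow_mul, zpow_natCast, ← zpow_natCast _ N, ← zpow_natCast _ N, ← zpow_mul, ← zpow_mul,
      mul_comm]
  have M := hQ.main (h.zpow _) (h.Uz s) hρ ((h.rho.one_sub_zpow v1 s).neg.eq (by ring)) d.ha k hk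
  rw [← d.z_eq hq, ← d.lam_eq hq] at M
  have vw := hQ.vww (h.zpow r) (l := (-1) ^ ((a : ℤ) + s * N) * q ^ f) (by simp [h.vQ])
    (hQ.vw0 d.ha) k (by omega)
  have e1 : q ^ (s * (N + 1 : ℕ)) = (q ^ (N + 1)) ^ s := by
    rw [mul_comm, zpow_mul, zpow_natCast]
  have e2 : (q ^ m) ^ (N + 1) / q ^ (s * (N + 1 : ℕ)) = (q ^ (N + 1)) ^ ((m : ℤ) - s) := by
    rw [e1, zpow_sub₀ (pow_ne_zero _ hq), zpow_natCast, ← pow_mul, ← pow_mul, mul_comm]
  rw [e2, e1] at M
  have a1 := h.U.lin_zpow (h.pow _) s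
  have a2 := h.U.lin_zpow (h.pow _) ((m : ℤ) - s)
  have b2 := h.U.one_sub_zpow (h.pow _) ((m : ℤ) - s)
  refine (M.add (((a1.mul b2).add ((h.U.mull (h.intle s)).mul a2)).mulr vw)).eq ?_
  push_cast
  ring

theorem Ak_symm {Q z : F} (hQ : Q ≠ 0) (hz : z ≠ 0) : Ak Q (Q / z) = Ak Q z := by
  funext k; rw [Ak, Ak]; field_simp; ring

theorem cc_symm {Q z : F} (hQ : Q ≠ 0) (hz : z ≠ 0) : cc Q (Q / z) = cc Q z := by
  funext k; rw [cc, cc, Ak_symm hQ hz]

theorem H.exact0 {N m a : ℕ} {r f : ℤ} (h : H v γ (N + 1) q) (d : Dat N m a r 0 f) (k : ℕ)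
    (hk : k ≤ N) :
    cc (q ^ m) (q ^ r) k = (-1) ^ (a : ℤ) * q ^ f * (GG (q ^ m) (q ^ r) (N + 1)).coeff k := by
  have hq := ne0 h.vQ
  have hQ := h.cop (by omega) d.cop
  have e1 := d.z_eq hq
  have e2 := d.lam_eq hq
  simp only [zero_mul, zpow_zero, add_zero] at e1 e2
  rw [e1, e2]
  exact exact_one (ne0 hQ.vQ) (fun k hk => ne0 (hQ.vk _ (by omega) (by omega))) d.ha k hk

theorem H.exact {N m a : ℕ} {r s f : ℤ} (h : H v γ (N + 1) q) (d : Dat N m a r s f)
    (hs : s = 0 ∨ s = m) (k : ℕ) (hk : k ≤ N) :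
    cc (q ^ m) (q ^ r) k =
      (-1) ^ ((a : ℤ) + s * N) * q ^ f * (GG (q ^ m) (q ^ r) (N + 1)).coeff k := by
  rcases hs with rfl | rfl
  · simpa using h.exact0 d k hk
  · have hq := ne0 h.vQ
    obtain ⟨b, rfl⟩ := Nat.exists_eq_add_of_le d.ha
    have d' : Dat (a + b) m b (m - r) 0 f :=
      ⟨d.cop, d.m0, by omega, by have := d.hs; push_cast at this ⊢; linear_combination -this,
        by have := d.hf; linear_combination this⟩
    have e := h.exact0 d' k hk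
    have ez : q ^ ((m : ℤ) - r) = q ^ m / q ^ r := by rw [zpow_sub₀ hq, zpow_natCast]
    simp only [GG, ez, cc_symm (pow_ne_zero m hq) (zpow_ne_zero r hq)] at e
    rw [e, GG]
    congr 2
    have hp : Even ((a : ℤ) + m * (a + b : ℕ) - b) := by
      have := d.cop
      rcases Nat.even_or_odd' m with ⟨c, rfl | rfl⟩
      · rcases Nat.even_or_odd' (a + b) with ⟨e, he | he⟩
        · exact ⟨a + c * (a + b) - e, by push_cast; zify at he; linear_combination -he⟩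
        · have := Nat.eq_one_of_dvd_coprimes this (dvd_mul_right 2 c) ⟨e + 1, by omega⟩
          omega
      · exact ⟨a + c * (a + b), by push_cast; ring⟩
    have hn : (-1 : F) ≠ 0 := neg_ne_zero.2 one_ne_zero
    have := hp.neg_one_zpow (α := F)
    rw [zpow_sub₀ hn, div_eq_one_iff_eq (zpow_ne_zero _ hn)] at this
    exact this.symm

theorem H.vGG {N m a : ℕ} {r s f : ℤ} (h : H v γ (N + 1) q) (d : Dat N m a r s f) (k : ℕ)
    (hk : k ≤ N) : D v γ 2 (cc (q ^ m) (q ^ r) k - (-1) ^ ((a : ℤ) + s * N) * q ^ f *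
      (GG (q ^ m) (q ^ r) (N + 1)).coeff k) ∧ v ((GG (q ^ m) (q ^ r) (N + 1)).coeff k) ≤ 1 := by
  have hQ := h.cop (by omega) d.cop
  have vw := hQ.vww (h.zpow r) (l := (-1) ^ ((a : ℤ) + s * N) * q ^ f) (by simp [h.vQ])
    (hQ.vw0 d.ha) k (by omega)
  have A : D v γ 2 (cc (q ^ m) (q ^ r) k - (-1) ^ ((a : ℤ) + s * N) * q ^ f *
      (GG (q ^ m) (q ^ r) (N + 1)).coeff k) :=
    (((h.third d k hk).mono h.g1 (by norm_num)).add ((((h.U.mul h.U).mull
      (le1_mul (h.intle s) (le1_sub (h.natle m) (h.intle s))))).mulr vw)).eq (by ring)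
  refine ⟨A, ?_⟩
  have := le1_sub (hQ.vcc (h.zpow r) (k := k) (by omega)) (A.le_one h.g1)
  simpa [h.vQ] using this

theorem H.order {N m a : ℕ} {r s f : ℤ} (h : H v γ (N + 1) q) (hγ : v (1 - q ^ (N + 1)) = γ)
    (hγ0 : γ ≠ 0) (hN : 1 ≤ N) (d : Dat N m a r s f) (j : ℕ) (g : ℤ) :
    (∀ k ≤ N, D v γ j (cc (q ^ m) (q ^ r) k - (-1) ^ ((a : ℤ) + s * N) * q ^ g *
      (GG (q ^ m) (q ^ r) (N + 1)).coeff k)) ↔
    j = 0 ∨ (j = 1 ∧ ((N + 1 : ℕ) : ℤ) ∣ g - f) ∨ (g = f ∧ (j ≤ 2 ∨ s = 0 ∨ s = m)) := by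
  have hq := ne0 h.vQ
  have hQ := h.cop (by omega) d.cop
  have eg : q ^ g = q ^ f * q ^ (g - f) := by rw [← zpow_add₀ hq]; congr 1; ring
  have vl : v ((-1) ^ ((a : ℤ) + s * N) * q ^ f) = 1 := by simp [h.vQ]
  have lt : ∀ i : ℕ, ¬γ ^ i ≤ γ ^ (i + 1) := fun i hi => by
    rw [pow_succ] at hi
    exact absurd ((le_mul_iff_one_le_right (pow_pos (zero_lt_iff.2 hγ0) i)).1 hi) (not_le.2 h.g1)
  constructor
  · intro hd
    rcases Nat.eq_zero_or_pos j with hj | hj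
    · exact Or.inl hj
    have A := (h.vGG d 0 (by omega)).1
    have u0 : v ((-1) ^ ((a : ℤ) + s * N) * q ^ f * (GG (q ^ m) (q ^ r) (N + 1)).coeff 0) = 1 :=
      D.unit (Y := 1) h.g1 ((A.mono h.g1 (by norm_num)).neg.eq (by simp [cc])) v.map_one
    have B : ∀ i ≤ 2, i ≤ j → D v γ i (1 - q ^ (g - f)) := fun i h2 hi =>
      D.of_mul ((((hd 0 (by omega)).mono h.g1 hi).sub (A.mono h.g1 h2)).eq
        (by rw [eg]; ring)) u0
    have dv : ((N + 1 : ℕ) : ℤ) ∣ g - f := by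
      by_contra hh
      exact absurd (h.vz (by omega) hh) ((B 1 (by omega) hj).lt_one h.g1).ne
    by_cases h1 : j = 1
    · exact Or.inr (Or.inl ⟨h1, dv⟩)
    obtain ⟨e, he⟩ := dv
    have gf : g = f := by
      by_contra hh
      have he0 : e ≠ 0 := by rintro rfl; exact hh (by linear_combination he)
      have B2 := B 2 le_rfl (by omega)
      rw [he, zpow_mul, zpow_natCast] at B2
      have B3 : D v γ 2 (1 - q ^ (N + 1)) :=
        D.of_mul ((B2.sub (h.U.lin_zpow (h.pow _) e)).eq (by ring)) (h.int e he0)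
      rw [D, hγ] at B3
      exact lt 1 (by simpa using B3)
    refine Or.inr (Or.inr ⟨gf, ?_⟩)
    by_contra hh
    push Not at hh
    obtain ⟨h3, s0, sm⟩ := hh
    subst gf
    have W : ∀ k ≤ N, v (ww (q ^ m) (q ^ r) ((-1) ^ ((a : ℤ) + s * N) * q ^ g)
        (w0 (q ^ m) N a) k) < 1 := fun k hk => by
      have C1 := (((hd k hk).mono h.g1 h3).sub (h.third d k hk))
      rw [sub_sub_cancel, D, map_mul, map_mul, map_mul, map_pow, hγ, h.int s s0] at C1
      have : v ((m : F) - s) = 1 := by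
        have := h.int (m - s) (by omega); simpa using this
      rw [this, one_mul, one_mul, pow_succ γ 2] at C1
      exact ((mul_le_mul_iff_right₀ (pow_pos (zero_lt_iff.2 hγ0) 2)).1 C1).trans_lt h.g1
    have W0 := W 0 (by omega)
    have W1 := W 1 hN
    rw [ww, map_div₀, map_pow, hQ.vk _ (by omega) (by omega), one_pow, div_one,
      v.map_add_eq_of_lt_right, vl] at W1
    · exact lt_irrefl _ W1
    · rw [vl, map_mul]
      exact (mul_le_of_le_one_left' (hQ.vAk (h.zpow r) 0)).trans_lt W0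
  · rintro (rfl | ⟨rfl, e, he⟩ | ⟨rfl, h2 | hs⟩) k hk
    · have := le1_sub (hQ.vcc (h.zpow r) (k := k) (by omega))
        (le1_mul (X := (-1) ^ ((a : ℤ) + s * N) * q ^ g) (by simp [h.vQ]) (h.vGG d k hk).2)
      simpa [D] using this
    · have := ((h.Uz e).mull vl.le).mulr (h.vGG d k hk).2
      exact (((h.vGG d k hk).1.mono h.g1 (by norm_num)).add this).eq
        (by rw [eg, he, mul_comm e]; ring)
    · exact (h.vGG d k hk).1.mono h.g1 h2
    · rw [← h.exact d hs k hk, sub_self]; exact D.zero j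

end Pool.Agent.P.MP_594717_nt
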