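import Pool.Agent.P.MP_594717_nt.E
import Pool.Agent.P.MP_594717_nt.Bridge

/-! Transfer to the field of rational functions in `q` and `x`. -/

open Finset Polynomial

namespace Pool.Agent.P.MP_594717_nt

theorem io_q : io (al X) = q := io_al X

theorem q_ne : q ≠ 0 := by
  rw [← io_q, _root_.map_ne_zero]
  exact (map_ne_zero_iff _ al_inj).2 X_ne_zero

theorem io_cc (m : ℕ) (r : ℤ) (k : ℕ) : io (cc (al X ^ m) (al X ^ r) k) = c m r k := by
  have e : ∀ i, q ^ m * (q ^ m) ^ i / q ^ r = q ^ ((m : ℤ) - r) * (q ^ m) ^ i := fun i => by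
    rw [zpow_sub₀ q_ne, zpow_natCast]; ring
  simp only [cc, Ak, map_prod, map_div₀, map_mul, map_sub, map_one, map_pow, map_zpow₀, io_q, e, c,
    poch, prod_div_distrib, prod_mul_distrib, prod_pow, pow_succ' (q ^ m)]

noncomputable def pl (f : ℕ → F1) (n : ℕ) : F1[X] := ∑ k ∈ range n, C (f k) * X ^ k

theorem pl_coeff (f : ℕ → F1) (n k : ℕ) : (pl f n).coeff k = if k < n then f k else 0 := by
  simp [pl, finsetSum_coeff, coeff_C_mul, coeff_X_pow]

theorem ev_pl (f : ℕ → F1) (n : ℕ) : ev (pl f n) = ∑ k ∈ range n, io (f k) * x ^ k := by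
  simp only [pl, map_sum, map_mul, map_pow, ev_C, ev_X]

theorem ev_lhs (n m : ℕ) (r : ℤ) : ev (pl (cc (al X ^ m) (al X ^ r)) n) = lhs n m r := by
  simp only [ev_pl, io_cc, lhs]

theorem ev_rhs (n m : ℕ) (r : ℤ) : ev (GG (al X ^ m) (al X ^ r) n) = rhs n m r := by
  simp only [GG, ph, map_sum, map_prod, map_mul, map_sub, map_one, map_pow, ev_C, ev_X, io_cc, io_q,
    rhs, poch, pow_mul]

theorem GG_high (Q z : F1) {n k : ℕ} (hk : n ≤ k) : (GG Q z n).coeff k = 0 := by
  rw [GG, finsetSum_coeff]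
  refine sum_eq_zero fun i hi => ?_
  have : (ph Q i).natDegree ≤ i := by
    refine (natDegree_prod_le _ _).trans ((sum_le_card_nsmul _ _ 1 fun j _ => ?_).trans (by simp))
    rw [← C_pow]
    compute_degree
  rw [coeff_C_mul, coeff_eq_zero_of_natDegree_lt (by have := mem_range.1 hi; omega), mul_zero]

theorem sum_Icc_one (f : ℕ → K) (a : ℕ) : ∑ j ∈ Icc 1 a, f j = ∑ j ∈ range a, f (j + 1) := by
  induction a with
  | zero => simp
  | succ a ih => rw [sum_Icc_succ_top (by omega), ih, sum_range_succ]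

theorem io_ww (N m : ℕ) (r : ℤ) (l : F1) (k : ℕ) :
    io (ww (al X ^ m) (al X ^ r) l (w0 (al X ^ m) N (res (N + 1) m r)) k) =
      w (N + 1) m r (io l) k := by
  induction k with
  | zero =>
    simp only [ww, w0, w, sum_Icc_one, map_add, map_neg, map_sum, map_div₀, map_mul, map_sub,
      map_one, map_pow, map_natCast, map_ofNat, io_q, pow_mul, Nat.cast_add, Nat.cast_one]
  | succ k ih =>
    have e1 : q ^ (r + m * k) = q ^ r * (q ^ m) ^ k := by
      rw [zpow_add₀ q_ne, zpow_mul, zpow_natCast, zpow_natCast]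
    have e2 : q ^ (m - r + m * k) = (q ^ m) ^ (k + 1) / q ^ r := by
      rw [zpow_add₀ q_ne, zpow_sub₀ q_ne, zpow_mul, zpow_natCast, zpow_natCast]; ring
    simp only [ww, w, Ak, ih, e1, e2, map_add, map_div₀, map_mul, map_sub, map_one, map_pow,
      map_zpow₀, io_q, pow_mul]

theorem res_spec {N m : ℕ} (h : m.Coprime (N + 1)) (r : ℤ) :
    res (N + 1) m r ≤ N ∧ ((N + 1 : ℕ) : ℤ) ∣ r + res (N + 1) m r * m := by
  refine ⟨Nat.lt_succ_iff.1 (ZMod.val_lt _), ?_⟩
  rw [← ZMod.intCast_zmod_eq_zero_iff_dvd]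
  push_cast
  rw [res, ZMod.natCast_zmod_val, mul_assoc, mul_comm _ (m : ZMod (N + 1)),
    ZMod.coe_mul_inv_eq_one m h]
  ring

theorem exists_dat {N m : ℕ} (hN : 1 ≤ N) (h : m.Coprime (N + 1)) (r : ℤ) :
    ∃ s f, Dat N m (res (N + 1) m r) r s f := by
  obtain ⟨ha, s, hs⟩ := res_spec h r
  generalize res (N + 1) m r = a at ha hs
  have e1 : (2 : ℤ) * ((a + 1).choose 2 : ℕ) = (a + 1) * a := by exact_mod_cast two_choose a
  have e2 : (2 : ℤ) * ((N + 1).choose 2 : ℕ) = (N + 1) * N := by exact_mod_cast two_choose N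
  refine ⟨s, s * (N + 1 : ℕ) * a - m * ((a + 1).choose 2 : ℕ) - s * ((N + 1).choose 2 : ℕ), h,
    Nat.pos_of_ne_zero ?_, ha, by rw [hs, mul_comm], ?_⟩
  · rintro rfl
    rw [Nat.coprime_zero_left] at h
    omega
  · rw [Nat.cast_add_one N] at hs ⊢
    have hr : r = s * (N + 1) - a * m := by linear_combination hs
    rw [hr]
    linear_combination -((m : ℤ) * m * e1) - m * s * e2

theorem third {N m : ℕ} {r s f : ℤ} (d : Dat N m (res (N + 1) m r) r s f) :
    Cong (cyclotomic (N + 1) ℚ) 3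
      (lhs (N + 1) m r - (-1) ^ ((res (N + 1) m r : ℤ) + s * N) * q ^ f * rhs (N + 1) m r)
      (s * (m - s) * (1 - q ^ (N + 1)) ^ 2 * ∑ k ∈ range (N + 1),
        w (N + 1) m r ((-1) ^ ((res (N + 1) m r : ℤ) + s * N) * q ^ f) k * x ^ k) := by
  have h := cyc_H (Nat.succ_pos N)
  have hQ := h.cop (by omega) d.cop
  set l : F1 := (-1) ^ ((res (N + 1) m r : ℤ) + s * N) * al X ^ f with hl
  have el : io l = (-1) ^ ((res (N + 1) m r : ℤ) + s * N) * q ^ f := by
    simp only [hl, map_mul, map_zpow₀, map_neg, map_one, io_q]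
  have := (cong_ev (cyclotomic.irreducible_rat (Nat.succ_pos N))
    (A := pl (cc (al X ^ m) (al X ^ r)) (N + 1) - C l * GG (al X ^ m) (al X ^ r) (N + 1))
    (B := C (s * (m - s) * (1 - al X ^ (N + 1)) ^ 2) *
      pl (ww (al X ^ m) (al X ^ r) l (w0 (al X ^ m) N (res (N + 1) m r))) (N + 1))
    (fun k => ?_) (fun k => ?_) 3).2 fun k => ?_
  · rw [map_sub, map_mul ev, map_mul ev, ev_lhs, ev_rhs, ev_C, ev_C, ev_pl, el] at this
    simp only [io_ww, el, map_mul, map_sub, map_pow, map_one, map_intCast, map_natCast,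
      io_q] at this
    exact this
  · rw [coeff_sub, coeff_C_mul, pl_coeff]
    split_ifs with hk
    · exact (h.vGG d k (by omega)).1.le_one h.g1
    · rw [GG_high _ _ (not_lt.1 hk)]; simp
  · rw [coeff_C_mul, pl_coeff]
    split_ifs with hk
    · refine le1_mul (le1_mul (le1_mul (h.intle s) (le1_sub (h.natle m) (h.intle s))) ?_)
        (hQ.vww (h.zpow r) (by simp [hl, h.vQ]) (hQ.vw0 d.ha) k hk)
      rw [sq]
      exact (h.U.mul h.U).le_one h.g1
    · simp
  · rw [coeff_sub, coeff_C_mul, coeff_C_mul, pl_coeff, pl_coeff]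
    split_ifs with hk
    · exact h.third d k (by omega)
    · rw [GG_high _ _ (not_lt.1 hk)]; simpa using D.zero 3

theorem order {N m : ℕ} {r s f : ℤ} (hN : 1 ≤ N) (d : Dat N m (res (N + 1) m r) r s f) (j : ℕ)
    (g : ℤ) :
    Cong (cyclotomic (N + 1) ℚ) j (lhs (N + 1) m r)
      ((-1) ^ ((res (N + 1) m r : ℤ) + s * N) * q ^ g * rhs (N + 1) m r) ↔
    j = 0 ∨ (j = 1 ∧ ((N + 1 : ℕ) : ℤ) ∣ g - f) ∨ (g = f ∧ (j ≤ 2 ∨ s = 0 ∨ s = m)) := by
  have h := cyc_H (Nat.succ_pos N)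
  have hQ := h.cop (by omega) d.cop
  set l : F1 := (-1) ^ ((res (N + 1) m r : ℤ) + s * N) * al X ^ g with hl
  have el : io l = (-1) ^ ((res (N + 1) m r : ℤ) + s * N) * q ^ g := by
    simp only [hl, map_mul, map_zpow₀, map_neg, map_one, io_q]
  have := cong_ev (cyclotomic.irreducible_rat (Nat.succ_pos N))
    (A := pl (cc (al X ^ m) (al X ^ r)) (N + 1)) (B := C l * GG (al X ^ m) (al X ^ r) (N + 1))
    (fun k => ?_) (fun k => ?_) j
  · rw [map_mul, ev_lhs, ev_rhs, ev_C, el] at this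
    rw [this, ← h.order (cyc_val (Nat.succ_pos N)) (by simpa using al_ne (cyclotomic.irreducible_rat
      (Nat.succ_pos N))) hN d j g]
    simp only [coeff_C_mul, pl_coeff]
    refine ⟨fun H k hk => by simpa [Nat.lt_succ_iff.2 hk] using H k, fun H k => ?_⟩
    split_ifs with hk
    · exact H k (by omega)
    · rw [GG_high _ _ (not_lt.1 hk)]; simpa using D.zero j
  · rw [pl_coeff]
    split_ifs with hk
    · exact hQ.vcc (h.zpow r) hk
    · simp
  · rw [coeff_C_mul]
    by_cases hk : k < N + 1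
    · exact le1_mul (by simp [hl, h.vQ]) (h.vGG d k (by omega)).2
    · rw [GG_high _ _ (not_lt.1 hk)]; simp

end Pool.Agent.P.MP_594717_nt
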